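import Pool.Agent.H705.TR.Stm
import Pool.Graph.R_pool_sql_team_seeded_707910d6.T2H19.GR.T_GEN
import Pool.Graph.R_pool_sql_team_seeded_707910d6.T2H19.GR.T_CRT

/-! # The gcd recursion for prime triples in the random model: the theorem from its parts -/

set_option autoImplicit false

namespace Pool.Agent.H705.TR

open MeasureTheory ProbabilityTheory Finset Filter Topology

/-- the final statement -/
def Main : Prop :=
    ((∀ m : ℕ, 2 ≤ m → (PrimeIn m m ↔ m.Prime)) ∧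
      ∀ N : ℕ, 6 ≤ N → ∀ a : ℕ → ℤ, a 1 = (N : ℤ) - 6 →
        (∀ n : ℕ, 2 ≤ n → a n = a (n - 1) - (Int.gcd (a (n - 1)) ((n : ℤ) + b n) : ℤ)) →
        (∀ n : ℕ, 1 ≤ n → n ≤ F id N → (aseq id N n : ℤ) = a n) ∧ IsLeast {n : ℕ | 1 ≤ n ∧ a n = 0} (F id N)) ∧
    (∀ (x : ℕ → ℕ) (N : ℕ), 6 ≤ N → IsLeast {n : ℕ | 1 ≤ n ∧ aseq x N n = 0} (F x N)) ∧
    (∀ M : ℕ → ℕ, (∀ c, Full c (M c)) →
      (∃ (Ω : Type) (_ : MeasurableSpace Ω) (P : Measure Ω) (X : ℕ → Ω → ℕ), Model M P X) ∧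
      ∀ (Ω : Type) [MeasurableSpace Ω] (P : Measure Ω) (X : ℕ → Ω → ℕ), Model M P X → ∀ᵐ ω ∂P,
        (∃ N₀ : ℕ, ∀ N : ℕ, N₀ ≤ N →
          PrimeIn (F (fun c => X c ω) N + 1) (X (F (fun c => X c ω) N + 1) ω) ∧
          PrimeIn (F (fun c => X c ω) N + 3) (X (F (fun c => X c ω) N + 1) ω + 2) ∧
          PrimeIn (F (fun c => X c ω) N + 7) (X (F (fun c => X c ω) N + 1) ω + 6) ∧
          (N : ℝ) - F (fun c => X c ω) N ≤ √(N : ℝ) * Real.log N ^ 11) ∧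
        ∀ t : ℝ, 0 < t → t ≤ 1 → Tendsto (fun x : ℕ =>
          (open Classical in (((range x).filter (fun N : ℕ =>
            (N : ℝ) - F (fun c => X c ω) N ≤ (N : ℝ) ^ (t / 2))).card : ℝ)) / x) atTop (𝓝 (t ^ 3)))

theorem main_of (hRUN : P_RUN) (hLIT : P_LIT) (hMOD : P_MOD) (hAS : P_AS) (hDEN : P_DEN) : Main := by
  refine ⟨hLIT, fun x N hN => (hRUN x N hN).1, fun M hM => ⟨hMOD M fun c => (hM c).1, ?_⟩⟩
  intro Ω _ P X hX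
  filter_upwards [hAS Ω M P X hM hX, hDEN Ω M P X hM hX] with ω h1 h2
  obtain ⟨N₀, hN₀⟩ := eventually_atTop.1 h1
  exact ⟨⟨N₀, fun N hN => ⟨(hN₀ N hN).1.1, (hN₀ N hN).1.2.1, (hN₀ N hN).1.2.2, (hN₀ N hN).2⟩⟩, h2⟩

/-- the shape of the derived packages -/
theorem final (hRUN : P_RUN) (hLIT : P_RUN → P_LIT) (hFLB : P_FLB) (hJMP : P_JMP) (hNXT : P_FLB → P_JMP → P_NXT)
    (hLNK : P_NXT → P_LNK) (hLOW : P_FLB → P_LNK → P_LOW) (hUP : P_FLB → P_JMP → P_LNK → P_UP)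
    (hMOD : P_MOD) (hUN : P_UN) (hRCH : P_RCH) (hIND : P_NXT → P_RCH → P_UN → P_GEN → P_IND)
    (hPRD : P_CRT → P_PRD) (hNT1 : P_PRD → P_NT1) (hNT2 : P_PRD → P_NT2)
    (hAS : P_RUN → P_FLB → P_LNK → P_RCH → P_IND → P_UN → P_NT1 → P_AS)
    (hLAW : P_RUN → P_FLB → P_LOW → P_UP → P_RCH → P_IND → P_UN → P_NT1 → P_NT2 → P_LAW)
    (hLLN : P_GEN → P_LLN)
    (hDEN : P_RUN → P_FLB → P_LAW → P_LLN → P_DEN) : Main := by
  have gen : P_GEN := Pool.Agent.T2H19.GR.T_GEN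
  have crt : P_CRT := Pool.Agent.T2H19.GR.T_CRT
  have nxt' := hNXT hFLB hJMP
  have lnk := hLNK nxt'
  have low := hLOW hFLB lnk
  have up := hUP hFLB hJMP lnk
  have ind := hIND nxt' hRCH hUN gen
  have prd := hPRD crt
  have law := hLAW hRUN hFLB low up hRCH ind hUN (hNT1 prd) (hNT2 prd)
  exact main_of hRUN (hLIT hRUN) hMOD (hAS hRUN hFLB lnk hRCH ind hUN (hNT1 prd)) (hDEN hRUN hFLB law (hLLN gen))

end Pool.Agent.H705.TR
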