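import Mathlib

/-! # The gcd recursion for prime triples in the random model: definitions

`a (n) = a (n - 1) - gcd (a (n - 1), n + b n)`. With the level `c = a (n - 1) + n` the gcd is `gcd (c + b n, n + b n)`. The
level does not change if the gcd is `1`, and falls by `g - 1` at a gcd `g`; at the zero `f` the level is `f + 1`. In the random
model the number `c` is replaced by a random integer `X c`. -/

set_option autoImplicit false

namespace Pool.Agent.H705.TR

open MeasureTheory ProbabilityTheory Finset Filter Topology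

/-- `b n = 2, 6, 0` for `n ≡ 1, 2, 0 (mod 3)` -/
def b (n : ℕ) : ℕ := if n % 3 = 1 then 2 else if n % 3 = 2 then 6 else 0

/-- `y`, the substitute of the number `m`, has no prime factor `p` with `p ^ 2 ≤ m`: `m` is prime in the model -/
def PrimeIn (m y : ℕ) : Prop := ∀ p : ℕ, p.Prime → p ^ 2 ≤ m → ¬ p ∣ y

open Classical in
/-- the substitute of `gcd (c + b n, n + b n)`, `n < c`, if the number `c` is replaced by `y`; it is `1` if `c + b n` is prime
in the model -/
noncomputable def G (c n y : ℕ) : ℕ :=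
  if PrimeIn (c + b n) (y + b n) then 1 else Nat.gcd (y + b n) (n + b n)

/-- the recursion `a (1) = N - 6`, `a (n) = a (n - 1) - gcd (c + b n, n + b n)`, `c = a (n - 1) + n`, with the number `c` replaced
by `x c` -/
noncomputable def aseq (x : ℕ → ℕ) (N : ℕ) : ℕ → ℕ
  | 0 => 0
  | 1 => N - 6
  | n + 2 => aseq x N (n + 1) - G (aseq x N (n + 1) + (n + 2)) (n + 2) (x (aseq x N (n + 1) + (n + 2)))

/-- the least `n ≥ 1` with `a (n) = 0` -/
noncomputable def F (x : ℕ → ℕ) (N : ℕ) : ℕ := sInf {n : ℕ | 1 ≤ n ∧ aseq x N n = 0}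

/-- the numbers `X c` are independent, `X c` is uniformly distributed on `0, …, M c - 1` -/
structure Model {Ω : Type} [MeasurableSpace Ω] (M : ℕ → ℕ) (P : Measure Ω) (X : ℕ → Ω → ℕ) : Prop where
  prob : IsProbabilityMeasure P
  meas : ∀ c, Measurable (X c)
  indep : iIndepFun X P
  lt : ∀ c ω, X c ω < M c
  law : ∀ c, ∀ k < M c, P {ω | X c ω = k} = ((M c : ℕ) : ENNReal)⁻¹

/-- `m` is positive and divisible by all the primes `p` with `p ^ 2 ≤ c + 6` -/
def Full (c m : ℕ) : Prop := 0 < m ∧ ∀ p : ℕ, p.Prime → p ^ 2 ≤ c + 6 → p ∣ m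

/-! ## Internal notions -/

/-- the level at the zero, `c` = the level before step `n` (so `a (n - 1) = c - n`) -/
noncomputable def fl (x : ℕ → ℕ) (n c : ℕ) : ℕ :=
  if h : c ≤ n then n else fl x (n + 1) (c - n - max 1 (G c n (x c)) + (n + 1))
termination_by c - n
decreasing_by
  have h1 : 1 ≤ max 1 (G c n (x c)) := le_max_left _ _
  omega

/-- `c`, `c + 2` and `c + 6` are prime in the model -/
def Free (c y : ℕ) : Prop := PrimeIn c y ∧ PrimeIn (c + 2) (y + 2) ∧ PrimeIn (c + 6) (y + 6)

/-- no prime `p ≤ z` prevents `Free c y` -/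
def R (z c y : ℕ) : Prop :=
  ∀ p : ℕ, p.Prime → p ≤ z → ∀ β : ℕ, (β = 0 ∨ β = 2 ∨ β = 6) → p ^ 2 ≤ c + β → ¬ p ∣ y + β

/-- the time of the first jump from time `n` on, at the level `c` with substitute `y` -/
noncomputable def jm (n c y : ℕ) : ℕ := sInf {m : ℕ | n ≤ m ∧ G c m y ≠ 1}

/-- the time and the level after the first jump -/
noncomputable def nxt (n c y : ℕ) : ℕ × ℕ := (jm n c y + 1, min (c - 1) (c + 1 - G c (jm n c y) y))

/-- one of the first `K` levels is rough (`R z`), and the first such level `c` satisfies `Q c (x c)` -/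
def Reach (z : ℕ) (Q : ℕ → ℕ → Prop) : ℕ → ℕ → ℕ → (ℕ → ℕ) → Prop
  | 0, _, _, _ => False
  | K + 1, n, c, x => (R z c (x c) ∧ Q c (x c)) ∨
      (¬ R z c (x c) ∧ Reach z Q K (nxt n c (x c)).1 (nxt n c (x c)).2 x)

/-- there is enough room for `K` levels which are not rough -/
def Ok (z L K n c : ℕ) : Prop :=
  1 ≤ n ∧ L + K * (n + K * (3 * z + 1) + 4) + 2 * (n + K * (3 * z + 1)) + 15 ≤ c

/-- the proportion of the `y < M` with `Q y` -/
noncomputable def un (M : ℕ) (Q : ℕ → Prop) : ℝ :=
  open Classical in (((range M).filter Q).card : ℝ) / M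

end Pool.Agent.H705.TR
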