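import Pool.Agent.H705.TR.Asm
import Pool.Agent.H166.TR.T_RUN
import Pool.Agent.H166.TR.T_JMP
import Pool.Agent.H166.TR.T_IND
import Pool.Agent.H457.TR.T_LIT
import Pool.Agent.H44.TR.T_FLB
import Pool.Agent.H44.TR.T_LOW
import Pool.Agent.H163.TR.T_NXT
import Pool.Agent.H163.TR.T_LNK
import Pool.Agent.H665.TR.T_UP
import Pool.Agent.H344.TR.T_MOD
import Pool.Agent.H344.TR.T_UN
import Pool.Agent.H344.TR.T_RCH
import Pool.Agent.H969.TR.T_PRD
import Pool.Agent.H969.TR.T_LLN
import Pool.Agent.H580.TR.T_NT1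
import Pool.Agent.H600.TR.T_NT2
import Pool.Agent.H23.TR.T_AS
import Pool.Agent.H383.TR.T_LAW
import Pool.Agent.H363.TR.T_DEN

/-! # The gcd recursion for prime triples in the random model: end of the proof -/

set_option autoImplicit false

namespace Pool.Agent.H705.TR

theorem main : Main := by
  have gen : P_GEN := Pool.Agent.T2H19.GR.T_GEN
  have crt : P_CRT := Pool.Agent.T2H19.GR.T_CRT
  have run := Pool.Agent.H166.TR.T_RUN
  have flb := Pool.Agent.H44.TR.T_FLB
  have jmp := Pool.Agent.H166.TR.T_JMP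
  have nx := Pool.Agent.H163.TR.T_NXT flb jmp
  have lnk := Pool.Agent.H163.TR.T_LNK nx
  have low := Pool.Agent.H44.TR.T_LOW flb lnk
  have up := Pool.Agent.H665.TR.T_UP flb jmp lnk
  have un' := Pool.Agent.H344.TR.T_UN
  have rch := Pool.Agent.H344.TR.T_RCH
  have ind := Pool.Agent.H166.TR.T_IND nx rch gen
  have prd := Pool.Agent.H969.TR.PRD.T_PRD crt
  have nt1 := Pool.Agent.H580.TR.T_NT1 prd
  have nt2 := Pool.Agent.H600.TR.T_NT2 prd
  have law := Pool.Agent.H383.TR.T_LAW run flb low up rch ind un' nt1 nt2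
  exact main_of run (Pool.Agent.H457.TR.LIT.T_LIT run) Pool.Agent.H344.TR.T_MOD
    (Pool.Agent.H23.TR.T_AS run flb lnk rch ind un' nt1)
    (Pool.Agent.H363.TR.T_DEN run flb law (Pool.Agent.H969.TR.LLN.T_LLN gen))

end Pool.Agent.H705.TR
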