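import Pool.Agent.H705.TR.Defs

/-! # The gcd recursion for prime triples in the random model: statements of the packages

MAIN IDEA. The level `c` is constant as long as the gcds are `1` and falls by `g - 1` at a gcd `g`. The substitute `X c` is
fresh when the level `c` is reached, since the levels decrease. If `Free c (X c)` then the level never changes again. If not,
and if `p` is a prime with `p ^ 2 ≤ c + β`, `p ∣ X c + β`, `β ∈ {0, 2, 6}`, then there is a jump within `3 p` steps, of size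
`g ≤ m + 6` at time `m`. As `P (Free) ≥ c₀ / log ^ 3`, one of the first `log ^ 5 N` levels is free with probability
`≥ 1 - exp (- c₀ log ^ 2 N)`, and all this costs at most `√N (log N) ^ 11`.

Package `X`: file `Pool/Agent/<you>/TR/T_X.lean` (or `Pool/Agent/H705/TR/T_X.lean`), `theorem T_X (hyp : P_Y) … : P_X`, your
lemmas in your own namespace; import `Pool.Agent.H705.TR.Stm` (Mathlib and `Defs` only; other library files only if needed).
No `sorry`, no axioms. -/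

set_option autoImplicit false

namespace Pool.Agent.H705.TR

open MeasureTheory ProbabilityTheory Finset Filter Topology

/-! ## Deterministic part -/

/-- RUN. The recursion and the level. Proof: for every `n ≥ 1` with `a n ≠ 0`: `G (a n + (n + 1)) (n + 1) y ≥ 1` (as
`n + 1 + b ≥ 1`, so the gcd is positive), so `a` decreases strictly until it is `0` and there is a zero: `IsLeast` by
`Nat.sInf_mem` and `Nat.sInf_le`. Second statement: prove by strong induction on `a n` (or on `c - n`): if `a k ≠ 0` for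
`1 ≤ k < n`, `n ≥ 1`, then `F x N + 1 = fl x (n + 1) (a n + (n + 1))`: if `a n = 0` then `n` is the least zero, and
`fl x (n + 1) (n + 1) = n + 1`; if not, unfold `fl` once (`rw [fl]`): here `c = a n + (n + 1)`, `c - (n + 1) = a n`,
`max 1 G = G`, and `a (n + 1) = a n - G`. Then take `n = 1`, `a 1 = N - 6`, `c = N - 6 + 2 = N - 4`. -/
def P_RUN : Prop :=
  ∀ (x : ℕ → ℕ) (N : ℕ), 6 ≤ N → IsLeast {n : ℕ | 1 ≤ n ∧ aseq x N n = 0} (F x N) ∧ F x N + 1 = fl x 2 (N - 4)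

/-- LIT. For `x c = c` it is the recursion of the problem. Proof: (1) `PrimeIn m m ↔ m.Prime` for `m ≥ 2`
(`Nat.minFac_sq_le_self`). (2) If `1 ≤ n < c` then `G c n c = gcd (c + b n, n + b n)`: if `c + b n` is prime then the gcd is
`1`, as `0 < n + b n < c + b n`. And `gcd (c + b n, n + b n) = gcd (c - n, n + b n)`. So by induction
`(aseq id N n : ℤ) = a n` for `1 ≤ n ≤ F` (as `aseq ≠ 0` at all `1 ≤ k < n`; with `c = aseq (n - 1) + n > n`; the gcd divides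
`a (n - 1) > 0` so it is at most `a (n - 1)` and the truncated subtraction is the true one). So `a n ≠ 0` for `1 ≤ n < F` and
`a F = 0`. (`F` is the least zero of `aseq`: use `P_RUN`.) -/
def P_LIT : Prop :=
  (∀ m : ℕ, 2 ≤ m → (PrimeIn m m ↔ m.Prime)) ∧
  ∀ N : ℕ, 6 ≤ N → ∀ a : ℕ → ℤ, a 1 = (N : ℤ) - 6 →
    (∀ n : ℕ, 2 ≤ n → a n = a (n - 1) - (Int.gcd (a (n - 1)) ((n : ℤ) + b n) : ℤ)) →
    (∀ n : ℕ, 1 ≤ n → n ≤ F id N → (aseq id N n : ℤ) = a n) ∧ IsLeast {n : ℕ | 1 ≤ n ∧ a n = 0} (F id N)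

/-- FLB. Simple facts on the level at the end. (1) bounds, (2) locality, (3) free run, (4) a run without jumps.
Proofs: strong induction on `c - n`, unfolding `fl` (`rw [fl]`). (1): the next level `c' = c - n - g + (n + 1)` satisfies
`n + 1 ≤ c' ≤ c` for `n < c`. (2): if `n < c < w` then both sides are false by (1); if `w ≤ c` then `x c = x' c`. (3): all the
`G c m (x c)` are `1` (`b m` is `0`, `2` or `6`), the level does not change. (4): induction on `k`. -/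
def P_FLB : Prop :=
  (∀ (x : ℕ → ℕ) (n c : ℕ), n ≤ fl x n c ∧ fl x n c ≤ max n c) ∧
  (∀ (x x' : ℕ → ℕ) (w n c : ℕ), (∀ i, w ≤ i → i ≤ c → x i = x' i) → (w ≤ fl x n c ↔ w ≤ fl x' n c)) ∧
  (∀ (x : ℕ → ℕ) (n c : ℕ), n ≤ c → Free c (x c) → fl x n c = c) ∧
  ∀ (x : ℕ → ℕ) (n c k : ℕ), n + k ≤ c → (∀ i < k, G c (n + i) (x c) = 1) → fl x n c = fl x (n + k) c

/-- JMP. The first jump. Proof: there is `m₀ ∈ [n, n + 3 p)` with `G c m₀ y ≠ 1`: if `p ≠ 3`, there is by the Chinese remainder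
theorem `m₀` in this interval with `m₀ + β ≡ 0 (mod p)` and `m₀ ≡ 1, 2, 0 (mod 3)` for `β = 2, 6, 0`, so that `b m₀ = β`; then
`PrimeIn (c + b m₀) (y + b m₀)` fails because of `p`, and `p ∣ gcd (y + β, m₀ + β)`, `m₀ + β > 0`. If `p = 3` and `β = 2`:
`m₀ ≡ 1 (mod 3)`, `b m₀ = 2`, `3 ∣ m₀ + 2`. If `p = 3` and `β ∈ {0, 6}`: `3 ∣ y`; take `m₀ ≡ 0 (mod 3)`, `b m₀ = 0`, and
`3 ^ 2 ≤ c`. So with `m = jm n c y` (`Nat.sInf_mem`, `Nat.sInf_le`): `n ≤ m ≤ m₀`, `G c m y ≠ 1`, so `PrimeIn` fails at `m` and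
`g = G c m y = gcd (y + b m, m + b m)`, which is positive as `m ≥ 1`, so `2 ≤ g ≤ m + b m ≤ m + 6`. -/
def P_JMP : Prop :=
  ∀ c y n p β : ℕ, 1 ≤ n → 9 ≤ c → p.Prime → (β = 0 ∨ β = 2 ∨ β = 6) → p ^ 2 ≤ c + β → p ∣ y + β →
    n ≤ jm n c y ∧ jm n c y < n + 3 * p ∧ (∀ i, n ≤ i → i < jm n c y → G c i y = 1) ∧
    2 ≤ G c (jm n c y) y ∧ G c (jm n c y) y ≤ jm n c y + 6 ∧ G c (jm n c y) y ∣ y + b (jm n c y)

/-- NXT (from FLB, JMP). One level which is not rough. Proof: `¬ R z c y` gives `p ≤ z`, `β`; JMP gives `m = jm n c y`,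
`n ≤ m < n + 3 z`, `g = G c m y`, `2 ≤ g ≤ m + 6`. FLB (4) with `k = m - n` and one unfolding of `fl` give
`fl x n c = fl x m c = fl x (m + 1) (c - m - g + (m + 1))` and, as `m + g ≤ 2 m + 6 ≤ c` (by `Ok`, `m < n + 3 z`),
`c - m - g + (m + 1) = c + 1 - g = min (c - 1) (c + 1 - g)`. `Ok` for the new state: with `T = n + (K + 1) (3 z + 1)` the new time
is `n' = m + 1 ≤ n + 3 z + 1`, so `n' + K (3 z + 1) ≤ T`, and `c' = c + 1 - g ≥ c - (m + 5) ≥ c - (n + 3 z + 4)`, so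
`L + K (n' + K (3 z + 1) + 4) + 2 (n' + K (3 z + 1)) + 15 ≤ L + K (T + 4) + 2 T + 15 ≤ c - (T + 4) ≤ c'`. -/
def P_NXT : Prop :=
  ∀ z L K n c y : ℕ, Ok z L (K + 1) n c → ¬ R z c y →
    Ok z L K (nxt n c y).1 (nxt n c y).2 ∧ (nxt n c y).1 ≤ n + (3 * z + 1) ∧ (nxt n c y).2 < c ∧
    c ≤ (nxt n c y).2 + (n + 3 * z + 4) ∧ ∀ x : ℕ → ℕ, x c = y → fl x n c = fl x (nxt n c y).1 (nxt n c y).2

/-- LNK (from NXT). The first rough level. Proof: induction on `K` (for all `n`, `c`); if `R z c (x c)` take `n' = n`, `c' = c`.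
If not, apply the induction hypothesis to `nxt n c (x c) = (n₁, c₁)`: `n' ≤ n₁ + K (3 z + 1) ≤ n + (K + 1) (3 z + 1)`,
`c ≤ c₁ + (n + 3 z + 4) ≤ c' + K (n₁ + K (3 z + 1) + 4) + (n + 3 z + 4) ≤ c' + (K + 1) (n + (K + 1) (3 z + 1) + 4)`. -/
def P_LNK : Prop :=
  ∀ (z L : ℕ) (Q : ℕ → ℕ → Prop) (K n c : ℕ) (x : ℕ → ℕ), Ok z L K n c → Reach z Q K n c x →
    ∃ n' c' : ℕ, 1 ≤ n' ∧ n' ≤ n + K * (3 * z + 1) ∧ c' ≤ c ∧ c ≤ c' + K * (n + K * (3 * z + 1) + 4) ∧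
      L + 2 * n' + 15 ≤ c' ∧ fl x n c = fl x n' c' ∧ R z c' (x c') ∧ Q c' (x c')

/-- LOW (from FLB, LNK). If the first rough level is free then the level at the end is this level. Proof: LNK, FLB (3). -/
def P_LOW : Prop :=
  ∀ (z L K n c : ℕ) (x : ℕ → ℕ), Ok z L K n c → Reach z Free K n c x →
    fl x n c ≤ c ∧ c ≤ fl x n c + K * (n + K * (3 * z + 1) + 4) ∧ Free (fl x n c) (x (fl x n c))

/-- UP (from FLB, JMP, LNK). If the first rough level is not free then the level falls by more than `z`. Proof: take `n'`, `c'`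
from LNK, `y = x c'`. As `¬ Free c' y` there are a prime `p` and `β ∈ {0, 2, 6}` with `p ^ 2 ≤ c' + β`, `p ∣ y + β`; so
`p ≤ √(c + 6)` and `2 (n' + 3 p) + 6 ≤ 2 n' + L + 6 ≤ c'`. JMP: `m = jm n' c' y < n' + 3 p`, `g = G c' m y`, `2 ≤ g ≤ m + 6`,
`g ∣ y + b m`. FLB (4), one unfolding and FLB (1): `fl x n' c' = fl x (m + 1) (c' + 1 - g) ≤ c' + 1 - g` (as
`m + 1 ≤ c' + 1 - g`). Let `q` be a prime factor of `g`; `q ∣ y + b m`, so `q > z`: otherwise `q ^ 2 ≤ z ^ 2 ≤ L ≤ c' + b m`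
contradicts `R z c' y`. So `g ≥ z + 1` and `fl x n c ≤ c' - z ≤ c - z`. -/
def P_UP : Prop :=
  ∀ (z L K n c : ℕ) (x : ℕ → ℕ), Ok z L K n c → z ^ 2 ≤ L → 6 * Nat.sqrt (c + 6) ≤ L →
    Reach z (fun c y => ¬ Free c y) K n c x → fl x n c + z ≤ c

/-! ## Probability -/

/-- MOD. The model exists. Proof: product measure of the uniform distributions on `Fin (M c)`. -/
def P_MOD : Prop :=
  ∀ M : ℕ → ℕ, (∀ c, 0 < M c) → ∃ (Ω : Type) (_ : MeasurableSpace Ω) (P : Measure Ω) (X : ℕ → Ω → ℕ), Model M P X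

/-- GEN (PROVED in the library, take it as a hypothesis). Independence of events which depend on disjoint finite sets of
coordinates. -/
def P_GEN : Prop :=
  ∀ (Ω : Type) [MeasurableSpace Ω] (P : Measure Ω) (ι : Type) [DecidableEq ι] (X : ι → Ω → ℕ), IsProbabilityMeasure P →
    (∀ i, Measurable (X i)) → iIndepFun X P → ∀ (S T : Finset ι), Disjoint S T → ∀ Q₁ Q₂ : (ι → ℕ) → Prop,
    (∀ v w : ι → ℕ, (∀ i ∈ S, v i = w i) → (Q₁ v ↔ Q₁ w)) → (∀ v w : ι → ℕ, (∀ i ∈ T, v i = w i) → (Q₂ v ↔ Q₂ w)) →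
    MeasurableSet {ω | Q₁ fun i => X i ω} ∧ MeasurableSet {ω | Q₂ fun i => X i ω} ∧
      P.real {ω | (Q₁ fun i => X i ω) ∧ Q₂ fun i => X i ω} = P.real {ω | Q₁ fun i => X i ω} * P.real {ω | Q₂ fun i => X i ω}

/-- CRT (PROVED in the library, take it as a hypothesis). -/
def P_CRT : Prop :=
  ∀ (M : ℕ) (S : Finset ℕ) (Q : ℕ → ℕ → Prop), 0 < M → (∀ l ∈ S, l.Prime ∧ l ∣ M) →
    un M (fun y => ∀ l ∈ S, Q l (y % l)) = ∏ l ∈ S, un l (Q l)

/-- UN. Proof: `{ω | Q (X c ω)}` is the disjoint union over the `k < M c` with `Q k` of the `{X c = k}` of measure `1 / M c`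
(`lt`, `law`, `meas`). -/
def P_UN : Prop :=
  ∀ (Ω : Type) [MeasurableSpace Ω] (M : ℕ → ℕ) (P : Measure Ω) (X : ℕ → Ω → ℕ), Model M P X →
    ∀ (c : ℕ) (Q : ℕ → Prop), MeasurableSet {ω | Q (X c ω)} ∧ P.real {ω | Q (X c ω)} = un (M c) Q

/-- RCH. Facts on `Reach`. Proofs: induction on `K`. (1) clear. (2) For locality: `(nxt n c y).2 ≤ c` always, because of
`min (c - 1)`. (3) clear (`by_cases` at every level), (4) clear. -/
def P_RCH : Prop :=
  (∀ (z : ℕ) (Q Q' : ℕ → ℕ → Prop) (K n c : ℕ) (x : ℕ → ℕ), (∀ c y, R z c y → Q c y → Q' c y) →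
    Reach z Q K n c x → Reach z Q' K n c x) ∧
  (∀ (z : ℕ) (Q : ℕ → ℕ → Prop) (K n c : ℕ) (x x' : ℕ → ℕ), (∀ i ≤ c, x i = x' i) →
    (Reach z Q K n c x ↔ Reach z Q K n c x')) ∧
  (∀ (z : ℕ) (Q : ℕ → ℕ → Prop) (K n c : ℕ) (x : ℕ → ℕ), Reach z (fun _ _ => True) K n c x →
    Reach z Q K n c x ∨ Reach z (fun c y => ¬ Q c y) K n c x) ∧
  ∀ z c y : ℕ, (Free c y → R z c y) ∧ (c + 6 < (z + 1) ^ 2 → R z c y → Free c y)

/-- IND (from NXT, RCH, UN, GEN). The first rough level.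
Proof: induction on `K` for all `n`, `c`. Write `E_Q (K, n, c)` for the probability of `Reach z Q K n c`, an event which
depends only on the `X i`, `i ≤ c` (RCH (2)) and is therefore measurable (GEN with `S = range (c + 1)`). For `K + 1`: the event is
the disjoint union of `{R z c (X c), Q c (X c)}` and of the events `{X c = y} ∩ {Reach z Q K (nxt n c y)}` for `y < M c`,
`¬ R z c y`, where `(nxt n c y).2 < c` (NXT), so that the two events are independent (GEN, `S = {c}`, `T = range c`, and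
`(nxt n c y).2 < c`); hence `E_Q (K+1, n, c) = P (R ∧ Q) + ∑_{y < M c, ¬ R z c y} P (X c = y) E_Q (K, nxt n c y)`. All
`nxt n c y` in the sum are `Ok z L K` (NXT), and their levels are `≤ c ≤ U`. The same formula with `Q = True`. By the induction
hypothesis and `ρ₁ P (R) ≤ P (R ∧ Q) ≤ ρ₂ P (R)` (note `L ≤ c` because of `Ok`) the first two inequalities follow. Third:
`E_True (K+1) ≥ P (R) + (1 - P (R)) (1 - (1 - δ) ^ K) = 1 - (1 - P (R)) (1 - δ) ^ K ≥ 1 - (1 - δ) ^ (K + 1)`. -/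
def P_IND : Prop :=
  ∀ (Ω : Type) [MeasurableSpace Ω] (M : ℕ → ℕ) (P : Measure Ω) (X : ℕ → Ω → ℕ), Model M P X →
    ∀ (z L U : ℕ) (Q : ℕ → ℕ → Prop) (ρ₁ ρ₂ δ : ℝ), 0 ≤ δ → δ ≤ 1 →
    (∀ c, L ≤ c → c ≤ U →
      ρ₁ * P.real {ω | R z c (X c ω)} ≤ P.real {ω | R z c (X c ω) ∧ Q c (X c ω)} ∧
      P.real {ω | R z c (X c ω) ∧ Q c (X c ω)} ≤ ρ₂ * P.real {ω | R z c (X c ω)} ∧
      δ ≤ P.real {ω | R z c (X c ω)}) →
    ∀ K n c : ℕ, Ok z L K n c → c ≤ U →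
      MeasurableSet {ω | Reach z Q K n c fun i => X i ω} ∧
      ρ₁ * P.real {ω | Reach z (fun _ _ => True) K n c fun i => X i ω} ≤ P.real {ω | Reach z Q K n c fun i => X i ω} ∧
      P.real {ω | Reach z Q K n c fun i => X i ω} ≤ ρ₂ * P.real {ω | Reach z (fun _ _ => True) K n c fun i => X i ω} ∧
      1 - (1 - δ) ^ K ≤ P.real {ω | Reach z (fun _ _ => True) K n c fun i => X i ω}

/-! ## Number theory -/

/-- PRD (from CRT). The probability that no prime of `S` divides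
`y (y + 2) (y + 6)`. Proof: `P_CRT` with `Q l r = ¬ (l ∣ r ∨ l ∣ r + 2 ∨ l ∣ r + 6)` (`l ∣ y % l + β ↔ l ∣ y + β`). For `l ≥ 5` the
three residues `0, -2, -6` modulo `l` are different, so `un l (Q l) = 1 - 3 / l`; for `l = 2`: `1 / 2`; for `l = 3`: `1 / 3`
(`decide`-like computations). -/
def P_PRD : Prop :=
  ∀ (m : ℕ) (S : Finset ℕ), 0 < m → (∀ l ∈ S, l.Prime ∧ l ∣ m) →
    un m (fun y => ∀ l ∈ S, ¬ (l ∣ y ∨ l ∣ y + 2 ∨ l ∣ y + 6)) =
      ∏ l ∈ S, (if l = 2 then (1 / 2 : ℝ) else if l = 3 then (1 / 3 : ℝ) else 1 - 3 / (l : ℝ))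

/-- NT1 (from PRD). Proof: for every `y`: if no prime `l` with `l ^ 2 ≤ c + 6` divides `y (y + 2) (y + 6)` then `R z c y`. So by
PRD `un m (R z c)` is at least the product over the primes `l ≤ √(c + 6)`. The primes `l ≤ 5` contribute a constant, for
`l ≥ 7`: `1 - 3 / l ≥ exp (- 3 / l - 18 / l ^ 2)` (`log (1 - u) ≥ - u - 2 u ^ 2` for `0 ≤ u ≤ 1/2`), `∑ 1 / l ^ 2` converges, and
`∑_{l ≤ t} 1 / l ≤ log log t + C` (`Pool.Agent.Helper601.Mertens.mertens_inv`, module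
`Pool.Graph.R_seed8.Helper601.Mertens`); `√(c + 6) ≤ c ^ 2`. Very similar: package FREE of the library, module
`Pool.Graph.R_pool_sql_team_seeded_707910d6.T2H19.GR.T_FREE`. -/
def P_NT1 : Prop :=
  ∃ c₀ : ℝ, 0 < c₀ ∧ ∀ z c m : ℕ, 2 ≤ c → Full c m → c₀ / Real.log c ^ 3 ≤ un m (R z c)

/-- NT2 (from PRD). Proof: let `N` be large, `z = ⌊N ^ (s/2)⌋`, so `z ^ 2 ≤ N / 2 ≤ c`, and every prime `l ≤ z` satisfies
`l ^ 2 ≤ c`: `R z c y` means that no prime `l ≤ z` divides `y (y + 2) (y + 6)`. `Free c y` follows if no prime `l` with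
`l ^ 2 ≤ c + 6` divides `y (y + 2) (y + 6)`, and implies that no prime `l` with `l ^ 2 ≤ c` does. So by PRD `un m (R z c ∧ Free c)`
lies between `un m (R z c) · ∏_{z < l, l^2 ≤ c+6} (1 - 3/l)` and `un m (R z c) · ∏_{z < l, l^2 ≤ c} (1 - 3/l)` (for `z ≥ 5`).
Both products tend to `s ^ 3`, uniformly in `c ∈ [N/2, N]`: for `z < l`: `|log (1 - 3/l) + 3/l| ≤ 18 / l ^ 2`,
`∑_{l > z} 1 / l ^ 2 ≤ 1 / z`, and `∑_{z < l ≤ t} 1/l = log (log t / log z) + O (1 / log z)` for `t = √c` or `√(c + 6)`, where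
`log t / log z → 1 / s` uniformly. (The asymptotic formula for `∑_{l ≤ t} 1/l = log log t + B + O(1/log t)` follows from
`Pool.Agent.Helper601.Mertens` (`mertens_log`: `∑_{l ≤ x} log l / l = log x + O(1)`) by partial summation; several copies are in
the library, e.g. search for `mertens` / `Mertens` with a constant `B` or for `sum over primes in (z, z ^ a]` → `log a`.) -/
def P_NT2 : Prop :=
  ∀ s : ℝ, 0 < s → s < 1 → ∀ ε : ℝ, 0 < ε → ∀ᶠ N : ℕ in atTop, ∀ c m : ℕ, N ≤ 2 * c → c ≤ N → Full c m →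
    (s ^ 3 - ε) * un m (R ⌊(N : ℝ) ^ (s / 2)⌋₊ c) ≤ un m (fun y => R ⌊(N : ℝ) ^ (s / 2)⌋₊ c y ∧ Free c y) ∧
    un m (fun y => R ⌊(N : ℝ) ^ (s / 2)⌋₊ c y ∧ Free c y) ≤ (s ^ 3 + ε) * un m (R ⌊(N : ℝ) ^ (s / 2)⌋₊ c)

/-! ## The theorems -/

/-- AS (from RUN, LOW, RCH, IND, UN, NT1). Almost surely the zeros of all large `N` are prime triples, with a square root loss.
Proof: let `N` be large, `c = N - 4`, `n = 2`, `z = √(N + 6)` (`Nat.sqrt`), `L = ⌈N / 2⌉`, `U = N`, `K = ⌈(log N) ^ 5⌉`,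
`δ = c₀ / (log N) ^ 3` (or the minimum with `1`). `K (2 + K (3 z + 1) + 4) ≤ √N (log N) ^ 11 / 2` for large `N`, so
`Ok z L K 2 (N - 4)`. IND with `Q = fun _ _ => True`, `ρ₁ = ρ₂ = 1`, and NT1, UN (`M c` is `Full`):
`P (Reach z True K 2 (N - 4)) ≥ 1 - (1 - δ) ^ K ≥ 1 - exp (- c₀ (log N) ^ 2)`, summable failure probabilities. Borel-Cantelli
(`measure_limsup_atTop_eq_zero` or `ae_eventually_notMem`): almost surely `Reach z True K 2 (N - 4)` for all large `N`. As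
`c + 6 < (z + 1) ^ 2` for all `c ≤ N`, `R z c y` implies `Free c y` for all visited levels: to use this replace `True` by
`fun c y => c ≤ N → Free c y`, or prove it along LNK (`c' ≤ c`): take `Q = fun c _ => True` in LNK, `R z c' (x c')` gives
`Free c' (x c')` by RCH (4), and FLB (3). By RUN `F + 1 = fl x 2 (N - 4)`. -/
def P_AS : Prop :=
  ∀ (Ω : Type) [MeasurableSpace Ω] (M : ℕ → ℕ) (P : Measure Ω) (X : ℕ → Ω → ℕ), (∀ c, Full c (M c)) → Model M P X →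
    ∀ᵐ ω ∂P, ∀ᶠ N : ℕ in atTop,
      Free (F (fun c => X c ω) N + 1) (X (F (fun c => X c ω) N + 1) ω) ∧
      (N : ℝ) - F (fun c => X c ω) N ≤ √(N : ℝ) * Real.log N ^ 11

/-- LAW (from RUN, LOW, UP, RCH, IND, UN, NT1, NT2, FLB). The limit law of the loss. Proof: write `w = N ^ (t/2)`, `N` large,
`L = ⌈N / 2⌉`, `U = N`, `K = ⌈(log N) ^ 5⌉`, `δ = c₀ / (log N) ^ 3`, `n = 2`, `c = N - 4`; `F + 1 = fl x 2 (N - 4)` (RUN).
LOWER BOUND. Let `0 < s < t`, `z = ⌊N ^ (s/2)⌋`. Then `K (2 + K (3 z + 1) + 4) + 5 ≤ w` for large `N`, `Ok z L K 2 (N - 4)`, and by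
LOW `Reach z Free K 2 (N - 4)` implies `N - F ≤ w`. By IND (`Q = Free`, `ρ₁ = s ^ 3 - ε`, `ρ₂ = s ^ 3 + ε`, NT1, NT2, UN):
`P (N - F ≤ w) ≥ (s ^ 3 - ε) (1 - (1 - δ) ^ K)` (for `ε < s ^ 3`), so the liminf is `≥ s ^ 3 - ε`; let `ε → 0`, `s → t`.
UPPER BOUND. For `t = 1` nothing to prove (probabilities are `≤ 1`). Let `t < s < 1`, `z = ⌊N ^ (s/2)⌋`; `Ok z L K 2 (N - 4)` for
large `N`, `z ^ 2 ≤ L`, `6 √(N + 6) ≤ L`, `z ≥ w`. If `N - F ≤ w` then `fl x 2 (N - 4) + z ≤ N - 4` fails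
(`fl = F + 1 ≥ N + 1 - w`), so by UP `Reach z (¬ Free)` fails, and by RCH (3): `Reach z Free` holds or `Reach z True` fails. So
`P (N - F ≤ w) ≤ (s ^ 3 + ε) + (1 - δ) ^ K` by IND, and the limsup is `≤ s ^ 3 + ε`; let `ε → 0`, `s → t`.
`(1 - δ) ^ K ≤ exp (- δ K) → 0`. (Use outer measures or the measurability in IND; the event `N - F ≤ w` is measurable but this
is not needed: `measureReal_mono`.) -/
def P_LAW : Prop :=
  ∀ (Ω : Type) [MeasurableSpace Ω] (M : ℕ → ℕ) (P : Measure Ω) (X : ℕ → Ω → ℕ), (∀ c, Full c (M c)) → Model M P X →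
    ∀ t : ℝ, 0 < t → t ≤ 1 →
      Tendsto (fun N : ℕ => P.real {ω | (N : ℝ) - F (fun c => X c ω) N ≤ (N : ℝ) ^ (t / 2)}) atTop (𝓝 (t ^ 3))

/-- LLN (from GEN). A law of large numbers. Proof: `A N` depends only on the coordinates
`i ∈ [N - √N - 6, N]` (a finite set), so `{ω | A N …}` is measurable and `A N`, `A N'` are independent if
`N' + √N' ...`, precisely if `N' > N` and `N < N' - √N' - 6` (GEN). Let `1_N` be the indicators, `S x = ∑_{N < x} 1_N`. Then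
`Var (S x) ≤ ∑_{N, N' < x} |Cov| ≤ #{(N, N') : N, N' < x, |N - N'| ≤ √x + 6} ≤ x (2 √x + 13)`. Chebyshev for `x = k ^ 4`:
`P (|S x - E S x| > ε x) ≤ (2 k ^ 2 + 13) / (ε ^ 2 k ^ 4) ≤ 15 / (ε ^ 2 k ^ 2)`, summable, so by Borel-Cantelli (for all rational
`ε > 0`, or `ε = 1 / j`) almost surely `(S (k ^ 4) - E S (k ^ 4)) / k ^ 4 → 0`; `E S x / x → θ` (Cesàro,
`Filter.Tendsto.cesaro`), so `S (k ^ 4) / k ^ 4 → θ`; for `k ^ 4 ≤ x < (k + 1) ^ 4`:
`S (k ^ 4) / (k + 1) ^ 4 ≤ S x / x ≤ S ((k + 1) ^ 4) / k ^ 4`, and `(k + 1) ^ 4 / k ^ 4 → 1`. -/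
def P_LLN : Prop :=
  ∀ (Ω : Type) [MeasurableSpace Ω] (P : Measure Ω) (X : ℕ → Ω → ℕ), IsProbabilityMeasure P →
    (∀ i, Measurable (X i)) → iIndepFun X P → ∀ (A : ℕ → (ℕ → ℕ) → Prop) (θ : ℝ),
    (∀ (N : ℕ) (v w : ℕ → ℕ), (∀ i, N ≤ i + Nat.sqrt N + 6 → i ≤ N → v i = w i) → (A N v ↔ A N w)) →
    Tendsto (fun N : ℕ => P.real {ω | A N fun i => X i ω}) atTop (𝓝 θ) →
    ∀ᵐ ω ∂P, Tendsto (fun x : ℕ =>
      (open Classical in (((range x).filter (fun N => A N fun i => X i ω)).card : ℝ)) / x) atTop (𝓝 θ)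

/-- DEN (from RUN, FLB, LAW, LLN). Almost surely, for all `t` simultaneously, the integers `N` with `N - f(N) ≤ N ^ (t/2)` have
the natural density `t ^ 3`. Proof: for fixed `t ∈ (0, 1]` let `A N x` be `6 ≤ N ∧ (N : ℝ) - F x N ≤ N ^ (t/2)`. For `N ≥ 6` this is
`W ≤ fl x 2 (N - 4)` with `W = ⌈N + 1 - N ^ (t/2)⌉₊` (RUN), so by FLB (2) it depends only on the `x i`, `W ≤ i ≤ N - 4`, and
`W ≥ N - √N - 1` (as `N ^ (t/2) ≤ √N < Nat.sqrt N + 1`). So LLN (with LAW) gives the density `t ^ 3` almost surely, and so almost surely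
for all rational `t ∈ (0, 1]` simultaneously. For real `t ∈ (0, 1)` take rationals `s < t < s'`: for `N ≥ 1`
`N ^ (s/2) ≤ N ^ (t/2) ≤ N ^ (s'/2)`, so the upper and lower densities lie between `s ^ 3` and `s' ^ 3`; `t = 1` is rational. The
finitely many `N < 6` do not matter. -/
def P_DEN : Prop :=
  ∀ (Ω : Type) [MeasurableSpace Ω] (M : ℕ → ℕ) (P : Measure Ω) (X : ℕ → Ω → ℕ), (∀ c, Full c (M c)) → Model M P X →
    ∀ᵐ ω ∂P, ∀ t : ℝ, 0 < t → t ≤ 1 → Tendsto (fun x : ℕ =>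
      (open Classical in (((range x).filter (fun N : ℕ =>
        (N : ℝ) - F (fun c => X c ω) N ≤ (N : ℝ) ^ (t / 2))).card : ℝ)) / x) atTop (𝓝 (t ^ 3))

end Pool.Agent.H705.TR
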